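import Pool.Agent.CBG.StmtsA

set_option autoImplicit false

open scoped Manifold ContDiff Topology
open Set Filter MeasureTheory

namespace Pool.Agent.CBG.H97

theorem gso : GsoStmt := by
  intro n B v z hs hp hl
  have hv : v ≠ 0 := by
    have h := hl.ne_zero 0
    simpa using h
  have hα : 0 < B v v := hp v hv
  set z' : Ed n := z - (B v z / B v v) • v with hz'
  have hz : z' ≠ 0 := by
    intro h
    rw [LinearIndependent.pair_iff] at hl
    have h1 := hl (-(B v z / B v v)) 1 (by rw [one_smul, neg_smul, neg_add_eq_sub]; exact h)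
    exact one_ne_zero h1.2
  have hβ : 0 < B z' z' := hp z' hz
  have e : ∀ s : ℝ, (-s * (B v z / B v v)) • v + s • z = s • z' := by
    intro s
    rw [hz', smul_sub, smul_smul, neg_mul, neg_smul]
    abel
  have hvz : B v z' = 0 := by
    rw [hz', map_sub, map_smul, smul_eq_mul]
    field_simp
    ring
  have sα : 0 < √(B v v) := Real.sqrt_pos.2 hα
  have sβ : 0 < √(B z' z') := Real.sqrt_pos.2 hβ
  refine ⟨1 / √(B v v), -(1 / √(B z' z')) * (B v z / B v v), 1 / √(B z' z'), by positivity,
    by positivity, ?_, ?_, ?_⟩
  · rw [map_smul, map_smul]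
    simp only [ContinuousLinearMap.smul_apply, smul_eq_mul]
    have := Real.mul_self_sqrt hα.le
    field_simp
    nlinarith
  · rw [e]
    rw [map_smul, map_smul]
    simp only [ContinuousLinearMap.smul_apply, smul_eq_mul]
    have := Real.mul_self_sqrt hβ.le
    field_simp
    nlinarith
  · rw [e, map_smul, map_smul]
    simp only [ContinuousLinearMap.smul_apply, smul_eq_mul]
    rw [hvz]
    ring

end Pool.Agent.CBG.H97
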